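import Mathlib

/-!
# The flip graph of 2-subsets of a 5-set has no factorization into rainbow Hamilton cycles
-/

set_option autoImplicit false

namespace Pool.Agent.Results.MP_fbee77_co.NoFactorizationFive

/-- The 2-element subsets of an `n`-element set. -/
abbrev Pairs (n : ℕ) : Type := {A : Finset (Fin n) // A.card = 2}

/-- The flip graph `G_{n,2}`. -/
def flipGraph (n : ℕ) : SimpleGraph (Pairs n) where
  Adj A B := (A.1 \ B.1).card = 1 ∧ (B.1 \ A.1).card = 1
  symm := ⟨fun _ _ h => ⟨h.2, h.1⟩⟩
  loopless := ⟨fun A h => by simp at h⟩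

/-- A rainbow cycle of `G_{n,2}`: a simple cycle (an injective closed sequence of vertices with
consecutive ones adjacent) such that every 2-element subset of the ground set is the colour
(symmetric difference of the ends) of exactly one edge. -/
structure RainbowCycle (n : ℕ) where
  len : ℕ
  three_le : 3 ≤ len
  c : ZMod len → Pairs n
  inj : Function.Injective c
  adj : ∀ i, (flipGraph n).Adj (c i) (c (i + 1))
  rainbow : ∀ T : Finset (Fin n), T.card = 2 → ∃! i, symmDiff (c i).1 (c (i + 1)).1 = T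

/-- Two cycles share no edge. -/
def EdgeDisjoint {n : ℕ} (C C' : RainbowCycle n) : Prop :=
  ∀ i j, s(C.c i, C.c (i + 1)) ≠ s(C'.c j, C'.c (j + 1))

/-! ### Codes for `n = 5` -/

/-- code of a pair -/
def code (A : Finset (Fin 5)) : ℕ :=
  if (0 : Fin 5) ∈ A then
    if (1 : Fin 5) ∈ A then 0 else if (2 : Fin 5) ∈ A then 1 else
      if (3 : Fin 5) ∈ A then 2 else 3
  else if (1 : Fin 5) ∈ A then
    if (2 : Fin 5) ∈ A then 4 else if (3 : Fin 5) ∈ A then 5 else 6
  else if (2 : Fin 5) ∈ A then
    if (3 : Fin 5) ∈ A then 7 else 8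
  else 9

/-- colour table (`10` means not adjacent) -/
def tab : List (List ℕ) :=
  [[10, 4, 5, 6, 1, 2, 3, 10, 10, 10], [4, 10, 7, 8, 0, 10, 10, 2, 3, 10],
   [5, 7, 10, 9, 10, 0, 10, 1, 10, 3], [6, 8, 9, 10, 10, 10, 0, 10, 1, 2],
   [1, 0, 10, 10, 10, 7, 8, 5, 6, 10], [2, 10, 0, 10, 7, 10, 9, 4, 10, 6],
   [3, 10, 10, 0, 8, 9, 10, 10, 4, 5], [10, 2, 1, 10, 5, 4, 10, 10, 9, 8],
   [10, 3, 10, 1, 6, 10, 4, 9, 10, 7], [10, 10, 3, 2, 10, 6, 5, 8, 7, 10]]

def colT (a b : ℕ) : ℕ := (tab.getD a []).getD b 10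

lemma code_lt (A : Finset (Fin 5)) : code A < 10 := by
  unfold code; split_ifs <;> norm_num

lemma code_inj : ∀ A B : Finset (Fin 5), A.card = 2 → B.card = 2 → code A = code B → A = B := by
  decide

lemma colT_eq : ∀ A B : Finset (Fin 5), A.card = 2 → B.card = 2 → (A \ B).card = 1 →
    (B \ A).card = 1 → colT (code A) (code B) = code (symmDiff A B) ∧
      (symmDiff A B).card = 2 := by
  decide

/-- edge codes -/
def ec (a b : ℕ) : ℕ := if a < b then 10 * a + b else 10 * b + a

/-- all completions of a partial rainbow Hamilton path to a rainbow Hamilton cycle, as lists of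
edge codes -/
def go : ℕ → ℕ → List ℕ → List ℕ → List ℕ → List (List ℕ)
  | 0, last, _, used, es =>
      if colT last 0 < 10 && !(used.contains (colT last 0)) then [ec last 0 :: es] else []
  | f + 1, last, path, used, es =>
      (List.range 10).flatMap fun v =>
        if colT last v < 10 && !(used.contains (colT last v)) && !(path.contains v) then
          go f v (v :: path) (colT last v :: used) (ec last v :: es)
        else []

def L (g : ℕ → ℕ) : ℕ → List ℕ
  | 0 => []
  | t + 1 => g t :: L g t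

lemma mem_L (g : ℕ → ℕ) (t e : ℕ) : e ∈ L g t ↔ ∃ s, s < t ∧ g s = e := by
  induction t with
  | zero => simp [L]
  | succ t ih =>
    rw [L, List.mem_cons, ih]
    constructor
    · rintro (h | ⟨s, hs, h⟩)
      · exact ⟨t, by omega, h.symm⟩
      · exact ⟨s, by omega, h⟩
    · rintro ⟨s, hs, h⟩
      by_cases hst : s = t
      · left; rw [← hst, h]
      · right; exact ⟨s, by omega, h⟩

lemma go_complete (x : ℕ → ℕ) (hx : ∀ t, x t < 10) (h10 : x 10 = 0)
    (hcol : ∀ t, colT (x t) (x (t + 1)) < 10)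
    (hinj : ∀ s t, s < t → t < 10 → x s ≠ x t)
    (hcinj : ∀ s t, s < t → t < 10 → colT (x s) (x (s + 1)) ≠ colT (x t) (x (t + 1))) :
    ∀ f t, f + t = 9 → L (fun s => ec (x s) (x (s + 1))) 10 ∈
      go f (x t) (L x (t + 1)) (L (fun s => colT (x s) (x (s + 1))) t)
        (L (fun s => ec (x s) (x (s + 1))) t) := by
  intro f
  induction f with
  | zero =>
    intro t ht
    have : t = 9 := by omega
    subst this
    have h1 := hcol 9
    rw [show 9 + 1 = 10 from rfl, h10] at h1
    have h2 : colT (x 9) 0 ∉ L (fun s => colT (x s) (x (s + 1))) 9 := by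
      rw [mem_L]
      rintro ⟨s, hs, h⟩
      have := hcinj s 9 hs (by norm_num)
      rw [show 9 + 1 = 10 from rfl, h10] at this
      exact this h
    unfold go
    rw [if_pos (by simp [h1, h2])]
    rw [List.mem_singleton]
    show ec (x 9) (x (9 + 1)) :: _ = _
    rw [show 9 + 1 = 10 from rfl, h10]
  | succ f ih =>
    intro t ht
    have h1 := hcol t
    have h2 : colT (x t) (x (t + 1)) ∉ L (fun s => colT (x s) (x (s + 1))) t := by
      rw [mem_L]
      rintro ⟨s, hs, h⟩
      exact hcinj s t hs (by omega) h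
    have h3 : x (t + 1) ∉ L x (t + 1) := by
      rw [mem_L]
      rintro ⟨s, hs, h⟩
      exact hinj s (t + 1) hs (by omega) h
    unfold go
    rw [List.mem_flatMap]
    refine ⟨x (t + 1), List.mem_range.mpr (hx _), ?_⟩
    rw [if_pos (by simp [h1, h2, h3])]
    exact ih (t + 1) (by omega)

def disj (A B : List ℕ) : Bool := A.all fun e => !(B.contains e)

lemma disj_of (A B : List ℕ) (h : ∀ e ∈ A, e ∉ B) : disj A B = true := by
  unfold disj
  rw [List.all_eq_true]
  intro e he
  simpa using h e he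

def allCycles : List (List ℕ) := go 9 0 [0] [] []

lemma check : (allCycles.all fun A => allCycles.all fun B => !(disj A B) ||
    allCycles.all fun D => !(disj A D) || !(disj B D)) = true := by
  decide +kernel

lemma len_eq (C : RainbowCycle 5) : C.len = 10 := by
  have h3 := C.three_le
  have : NeZero C.len := ⟨by omega⟩
  have hcard : Fintype.card (Pairs 5) = 10 := by
    have : Fintype.card (Pairs 5) = ((Finset.univ : Finset (Finset (Fin 5))).filter
        (fun A => A.card = 2)).card := Fintype.card_subtype _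
    rw [this]
    decide
  apply le_antisymm
  · have := Fintype.card_le_of_injective C.c C.inj
    rw [ZMod.card, hcard] at this
    exact this
  · choose g hg using fun T : Pairs 5 => (C.rainbow T.1 T.2).exists
    have hinj : Function.Injective g := by
      intro S T h
      apply Subtype.ext
      rw [← hg S, ← hg T, h]
    have := Fintype.card_le_of_injective g hinj
    rw [ZMod.card, hcard] at this
    exact this

/-- The edge-code list of a rainbow cycle. -/
lemma exists_list (C : RainbowCycle 5) : ∃ A ∈ allCycles,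
    ∀ e ∈ A, ∃ i, e = ec (code (C.c i).1) (code (C.c (i + 1)).1) := by
  have hlen := len_eq C
  obtain ⟨len, h3, c, inj, adj, rainbow⟩ := C
  simp only at hlen
  subst hlen
  simp only
  have hbij : Function.Surjective c := by
    have hcard : Fintype.card (Pairs 5) = 10 := by
      have : Fintype.card (Pairs 5) = ((Finset.univ : Finset (Finset (Fin 5))).filter
          (fun A => A.card = 2)).card := Fintype.card_subtype _
      rw [this]
      decide
    have := (Fintype.bijective_iff_injective_and_card c).mpr ⟨inj, by rw [ZMod.card, hcard]⟩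
    exact this.surjective
  obtain ⟨i0, hi0⟩ := hbij ⟨{0, 1}, by decide⟩
  set x : ℕ → ℕ := fun t => code (c (i0 + (t : ZMod 10))).1 with hxdef
  have hx0 : x 0 = 0 := by
    simp only [hxdef, Nat.cast_zero, add_zero, hi0]
    decide
  have hx10 : x 10 = 0 := by
    have : ((10 : ℕ) : ZMod 10) = 0 := ZMod.natCast_self 10
    simp only [hxdef, this, add_zero, hi0]
    decide
  have hsucc : ∀ t : ℕ, i0 + ((t + 1 : ℕ) : ZMod 10) = i0 + (t : ZMod 10) + 1 := by
    intro t; push_cast; ring
  have hcolT : ∀ t : ℕ, colT (x t) (x (t + 1)) =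
      code (symmDiff (c (i0 + (t : ZMod 10))).1 (c (i0 + (t : ZMod 10) + 1)).1) ∧
      (symmDiff (c (i0 + (t : ZMod 10))).1 (c (i0 + (t : ZMod 10) + 1)).1).card = 2 := by
    intro t
    have h := adj (i0 + (t : ZMod 10))
    simp only [hxdef, hsucc]
    exact colT_eq _ _ (c _).2 (c _).2 h.1 h.2
  have hne : ∀ s t : ℕ, s < t → t < 10 → i0 + (s : ZMod 10) ≠ i0 + (t : ZMod 10) := by
    intro s t hst ht h
    have h1 : (s : ZMod 10) = (t : ZMod 10) := add_left_cancel h
    have h2 := congrArg ZMod.val h1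
    rw [ZMod.val_natCast_of_lt (by omega), ZMod.val_natCast_of_lt ht] at h2
    omega
  have hmem := go_complete x (fun t => code_lt _) hx10 (fun t => by
      rw [(hcolT t).1]; exact code_lt _) (by
      intro s t hst ht h
      apply hne s t hst ht
      apply inj
      apply Subtype.ext
      exact code_inj _ _ (c _).2 (c _).2 h) (by
      intro s t hst ht h
      rw [(hcolT s).1, (hcolT t).1] at h
      have h1 := code_inj _ _ (hcolT s).2 (hcolT t).2 h
      apply hne s t hst ht
      exact (rainbow _ (hcolT t).2).unique h1 rfl) 9 0 rfl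
  refine ⟨L (fun s => ec (x s) (x (s + 1))) 10, ?_, ?_⟩
  · have e1 : L x (0 + 1) = [0] := by show [x 0] = [0]; rw [hx0]
    rw [e1, hx0] at hmem
    exact hmem
  · intro e he
    rw [mem_L] at he
    obtain ⟨s, -, hs⟩ := he
    refine ⟨i0 + (s : ZMod 10), ?_⟩
    rw [← hs]
    simp only [hxdef, hsucc]

lemma ec_inj : ∀ a b a' b' : ℕ, a < 10 → b < 10 → a' < 10 → b' < 10 → ec a b = ec a' b' →
    (a = a' ∧ b = b') ∨ (a = b' ∧ b = a') := by
  intro a b a' b' h1 h2 h3 h4 h
  unfold ec at h
  split_ifs at h <;> omega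

lemma disj_lists (C C' : RainbowCycle 5) (h : EdgeDisjoint C C') (A B : List ℕ)
    (hA : ∀ e ∈ A, ∃ i, e = ec (code (C.c i).1) (code (C.c (i + 1)).1))
    (hB : ∀ e ∈ B, ∃ i, e = ec (code (C'.c i).1) (code (C'.c (i + 1)).1)) :
    disj A B = true := by
  apply disj_of
  intro e he he'
  obtain ⟨i, hi⟩ := hA e he
  obtain ⟨j, hj⟩ := hB e he'
  apply h i j
  have hinj : ∀ X Y : Pairs 5, code X.1 = code Y.1 → X = Y := fun X Y h =>
    Subtype.ext (code_inj _ _ X.2 Y.2 h)
  rcases ec_inj _ _ _ _ (code_lt _) (code_lt _) (code_lt _) (code_lt _) (hi.symm.trans hj) with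
    ⟨h1, h2⟩ | ⟨h1, h2⟩
  · rw [hinj _ _ h1, hinj _ _ h2]
  · rw [hinj _ _ h1, hinj _ _ h2]
    exact Sym2.eq_swap

/-- `G_{5,2}` has no `5 - 2 = 3` pairwise edge-disjoint rainbow Hamilton cycles. -/
theorem result :
    ¬ ∃ C : Fin (5 - 2) → RainbowCycle 5, ∀ i j, i ≠ j → EdgeDisjoint (C i) (C j) := by
  rintro ⟨C, hC⟩
  obtain ⟨A, hA, hA'⟩ := exists_list (C 0)
  obtain ⟨B, hB, hB'⟩ := exists_list (C 1)
  obtain ⟨D, hD, hD'⟩ := exists_list (C 2)
  have h := check
  rw [List.all_eq_true] at h
  have h1 := h A hA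
  rw [List.all_eq_true] at h1
  have h2 := h1 B hB
  rw [disj_lists (C 0) (C 1) (hC 0 1 (by decide)) A B hA' hB'] at h2
  simp only [Bool.not_true, Bool.false_or] at h2
  rw [List.all_eq_true] at h2
  have h3 := h2 D hD
  rw [disj_lists (C 0) (C 2) (hC 0 2 (by decide)) A D hA' hD',
    disj_lists (C 1) (C 2) (hC 1 2 (by decide)) B D hB' hD'] at h3
  simp at h3

end Pool.Agent.Results.MP_fbee77_co.NoFactorizationFive
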